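import Pool.Agent.Helper50.LE.KN

/-!
# A1 : the sets `K`
-/

open MeasureTheory Set Filter Topology InnerProductSpace

noncomputable section

namespace LEP.A1

open LEP.KN

variable {H : Type} [NormedAddCommGroup H] [InnerProductSpace ℝ H]
variable {X : Type} [TopologicalSpace X] [MeasurableSpace X] [BorelSpace X]

theorem ev_le_two (a : ℝ) (ha : 0 ≤ a) :
    ∀ᶠ p : ℕ in atTop, a ^ ((1 : ℝ) / (p + 1)) ≤ 2 := by
  have h1 : Tendsto (fun p : ℕ => (2 : ℝ) ^ p) atTop atTop :=
    tendsto_pow_atTop_atTop_of_one_lt one_lt_two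
  filter_upwards [h1.eventually_ge_atTop a] with p hp
  have hp' : a ≤ (2 : ℝ) ^ (p + 1) := hp.trans (pow_le_pow_right₀ one_le_two (Nat.le_succ p))
  have h2 : a ^ ((1 : ℝ) / (p + 1)) ≤ ((2 : ℝ) ^ (p + 1)) ^ ((1 : ℝ) / (p + 1)) :=
    Real.rpow_le_rpow ha hp' (by positivity)
  refine h2.trans (le_of_eq ?_)
  rw [← Real.rpow_natCast, ← Real.rpow_mul (by norm_num)]
  have : ((p + 1 : ℕ) : ℝ) * ((1 : ℝ) / (p + 1)) = 1 := by
    push_cast
    field_simp
  rw [this, Real.rpow_one]

theorem st_A1 : ST_A1 := by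
  intro H _ _ _ X _ _ _ lam κ W c hWm hW hne hκ hlt hc
  have hc0 : 0 ≤ c := by
    obtain ⟨x, hx⟩ := hne
    exact (norm_nonneg _).trans (hc x hx)
  filter_upwards [ev_le_two (lam.real W) measureReal_nonneg] with p hp2
  -- bound on `N`
  have hNle : ∀ (h : H) (S : ℝ), 0 ≤ S → (∀ y ∈ W, ff κ h y ≤ S) → Nf lam κ W p h ≤ 2 * S :=
    fun h S hS0 hS => (Nf_le_sup hWm hW hκ hlt hS0 hS).trans (mul_le_mul_of_nonneg_right hp2 hS0)
  -- sign
  have hsign : ∀ k ∈ Kf lam κ W p, ∀ h : H, (∀ x ∈ W, ⟪κ x, h⟫_ℝ ≤ 0) → ⟪k, h⟫_ℝ ≤ 0 := by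
    intro k hk h hh
    refine (hk h).trans ?_
    have := hNle h 0 le_rfl (fun y hy => by unfold ff; rw [max_eq_right (hh y hy)])
    simpa using this
  have hconv : Convex ℝ (Kf lam κ W p) := by
    intro k hk l hl a b ha hb hab h
    rw [inner_add_left, real_inner_smul_left, real_inner_smul_left]
    have h1 := mul_le_mul_of_nonneg_left (hk h) ha
    have h2 := mul_le_mul_of_nonneg_left (hl h) hb
    have h3 : a * Nf lam κ W p h + b * Nf lam κ W p h = Nf lam κ W p h := by
      rw [← add_mul, hab, one_mul]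
    linarith
  have hclosed : IsClosed (Kf lam κ W p) := by
    have : Kf lam κ W p = ⋂ h : H, {k : H | ⟪k, h⟫_ℝ ≤ Nf lam κ W p h} := by
      ext k
      simp only [Kf, mem_setOf_eq, mem_iInter]
    rw [this]
    refine isClosed_iInter fun h => ?_
    exact isClosed_le (continuous_id.inner continuous_const) continuous_const
  -- compactness
  have hcomp : IsCompact (Kf lam κ W p) := by
    have hT : IsCompact (insert (0 : H) ((fun x => (2 : ℝ) • κ x) '' W)) :=
      (hW.image_of_continuousOn (hκ.const_smul (2 : ℝ))).insert 0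
    have hS : IsCompact (closure (convexHull ℝ (insert (0 : H) ((fun x => (2 : ℝ) • κ x) '' W)))) := by
      have h1 : TotallyBounded (convexHull ℝ (insert (0 : H) ((fun x => (2 : ℝ) • κ x) '' W))) :=
        hT.totallyBounded.convexHull
      exact TotallyBounded.isCompact_of_isClosed h1.closure isClosed_closure
    refine hS.of_isClosed_subset hclosed ?_
    intro k hk
    by_contra hkn
    obtain ⟨f, u, hf, hu⟩ := geometric_hahn_banach_closed_point
      ((convex_convexHull ℝ (insert (0 : H) ((fun x => (2 : ℝ) • κ x) '' W))).closure)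
      isClosed_closure hkn
    obtain ⟨h, rfl⟩ := (InnerProductSpace.toDual ℝ H).surjective f
    simp only [InnerProductSpace.toDual_apply_apply] at hf hu
    have hu0 : 0 < u := by
      have := hf 0 (subset_closure (subset_convexHull ℝ _ (mem_insert _ _)))
      simpa using this
    have h1 : ∀ y ∈ W, ff κ h y ≤ u / 2 := by
      intro y hy
      refine max_le ?_ (by linarith)
      have h2 := hf ((2 : ℝ) • κ y) (subset_closure (subset_convexHull ℝ _
        (mem_insert_of_mem _ (mem_image_of_mem _ hy))))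
      rw [real_inner_smul_right, real_inner_comm] at h2
      linarith
    have h3 := hNle h (u / 2) (by linarith) h1
    have h4 := hk h
    rw [real_inner_comm] at h4
    linarith
  refine ⟨hconv, hcomp, ?_, ?_, ?_, ?_, ?_⟩
  · intro h
    rw [inner_zero_left]
    exact Nf_nonneg _ _ _ _ _
  · intro k hk
    have h1 := hk k
    have h2 := hNle k (c * ‖k‖) (by positivity) (fun y hy => ff_le hc k hy)
    rw [real_inner_self_eq_norm_sq] at h1
    rcases (norm_nonneg k).eq_or_lt with h0 | h0
    · rw [← h0]; positivity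
    · have h3 : ‖k‖ * ‖k‖ ≤ (2 * c) * ‖k‖ := by nlinarith
      exact le_of_mul_le_mul_right h3 h0
  · intro k hk h hh
    refine le_antisymm (hsign k hk h fun x hx => (hh x hx).le) ?_
    have := hsign k hk (-h) fun x hx => by rw [inner_neg_right, hh x hx, neg_zero]
    rw [inner_neg_right] at this
    linarith
  · intro k hk h hh
    have := hsign k hk (-h) fun x hx => by rw [inner_neg_right]; linarith [hh x hx]
    rw [inner_neg_right] at this
    linarith
  · intro k hk h hh
    have h1 := hsign k hk (k - (c * ‖k‖) • h) fun x hx => by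
      rw [inner_sub_right, real_inner_smul_right, hh x hx, mul_one]
      have : ⟪κ x, k⟫_ℝ ≤ c * ‖k‖ :=
        (real_inner_le_norm _ _).trans (mul_le_mul_of_nonneg_right (hc x hx) (norm_nonneg _))
      linarith
    rw [inner_sub_right, real_inner_smul_right, real_inner_self_eq_norm_sq] at h1
    rcases (norm_nonneg k).eq_or_lt with h0 | h0
    · have hk0 : k = 0 := norm_eq_zero.1 h0.symm
      rw [hk0]
      simp
    · have h3 : ‖k‖ * ‖k‖ ≤ (c * ⟪k, h⟫_ℝ) * ‖k‖ := by nlinarith
      exact le_of_mul_le_mul_right h3 h0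

end LEP.A1
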