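import Pool.Agent.Helper50.LE.KN

/-!
# A6 : identification of a maximiser
-/

open MeasureTheory Set Filter Topology InnerProductSpace

noncomputable section

namespace LEP.A6

open LEP.KN

theorem hasDerivAt_maxpow (p : ℕ) (hp : 1 ≤ p) (x : ℝ) :
    HasDerivAt (fun x : ℝ => (max x 0) ^ (p + 1)) (((p : ℝ) + 1) * (max x 0) ^ p) x := by
  rcases lt_trichotomy x 0 with h | h | h
  · have h1 : (fun y : ℝ => (max y 0) ^ (p + 1)) =ᶠ[𝓝 x] fun _ => 0 := by
      filter_upwards [Iio_mem_nhds h] with y hy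
      rw [max_eq_right (le_of_lt hy), zero_pow (by omega)]
    rw [max_eq_right h.le, zero_pow (by omega), mul_zero]
    exact (hasDerivAt_const x 0).congr_of_eventuallyEq h1
  · subst h
    rw [max_self, zero_pow (by omega), mul_zero]
    rw [hasDerivAt_iff_isLittleO]
    rw [Asymptotics.isLittleO_iff]
    intro c hc
    have h1 : Metric.ball (0 : ℝ) (min c 1) ∈ 𝓝 (0 : ℝ) :=
      Metric.ball_mem_nhds _ (lt_min hc one_pos)
    filter_upwards [h1] with y hy
    rw [mem_ball_zero_iff, Real.norm_eq_abs] at hy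
    have hy1 : |y| ≤ 1 := (hy.trans_le (min_le_right _ _)).le
    have hyc : |y| ≤ c := (hy.trans_le (min_le_left _ _)).le
    rw [max_self, zero_pow (by omega), sub_zero, smul_zero, sub_zero, sub_zero, Real.norm_eq_abs,
      Real.norm_eq_abs, abs_pow]
    have h2 : |max y 0| ≤ |y| := by
      rw [abs_of_nonneg (le_max_right _ _)]
      exact max_le (le_abs_self y) (abs_nonneg y)
    calc |max y 0| ^ (p + 1) ≤ |y| ^ (p + 1) := pow_le_pow_left₀ (abs_nonneg _) h2 _
      _ = |y| ^ p * |y| := pow_succ _ _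
      _ ≤ c * |y| := by
          refine mul_le_mul_of_nonneg_right ?_ (abs_nonneg _)
          calc |y| ^ p ≤ |y| ^ 1 := pow_le_pow_of_le_one (abs_nonneg _) hy1 hp
            _ = |y| := pow_one _
            _ ≤ c := hyc
  · have h1 : (fun y : ℝ => (max y 0) ^ (p + 1)) =ᶠ[𝓝 x] fun y => y ^ (p + 1) := by
      filter_upwards [Ioi_mem_nhds h] with y hy
      rw [max_eq_left (le_of_lt hy)]
    rw [max_eq_left h.le]
    have h2 := hasDerivAt_pow (p + 1) x
    simp only [Nat.add_sub_cancel, Nat.cast_add, Nat.cast_one] at h2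
    exact h2.congr_of_eventuallyEq h1

variable {H : Type} [NormedAddCommGroup H] [InnerProductSpace ℝ H]
variable {X : Type} [TopologicalSpace X] [MeasurableSpace X] [BorelSpace X]

theorem deriv_I {κ : X → H} {W : Set X} {lam : Measure X}
    (hWm : MeasurableSet W) (hW : IsCompact W) (hκ : ContinuousOn κ W) (hlt : lam W < ⊤)
    {p : ℕ} (hp : 1 ≤ p) (v h : H) :
    HasDerivAt (fun t : ℝ => ∫ y in W, ff κ (v + t • h) y ^ (p + 1) ∂lam)
      (((p : ℝ) + 1) * ∫ y in W, ff κ v y ^ p * ⟪κ y, h⟫_ℝ ∂lam) 0 := by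
  obtain ⟨c, hc0, hc⟩ := exists_bound hW hκ
  have hmeas : ∀ t : ℝ, AEStronglyMeasurable (fun y => ff κ (v + t • h) y ^ (p + 1))
      (lam.restrict W) := fun t => (aesm_ff hWm hW hκ _).pow _
  have hFp : AEStronglyMeasurable (fun y => ((p : ℝ) + 1) * ff κ (v + (0 : ℝ) • h) y ^ p *
      ⟪κ y, h⟫_ℝ) (lam.restrict W) := by
    have h1 : AEStronglyMeasurable κ (lam.restrict W) :=
      hκ.aestronglyMeasurable_of_isCompact hW hWm
    exact (((aesm_ff hWm hW hκ _).pow p).const_mul _).mul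
      (h1.inner (𝕜 := ℝ) aestronglyMeasurable_const)
  have hfin : IsFiniteMeasure (lam.restrict W) := ⟨by simpa using hlt⟩
  have key := hasDerivAt_integral_of_dominated_loc_of_deriv_le (μ := lam.restrict W)
    (F := fun (t : ℝ) y => ff κ (v + t • h) y ^ (p + 1)) (x₀ := 0)
    (s := Metric.ball (0 : ℝ) 1)
    (F' := fun (t : ℝ) y => ((p : ℝ) + 1) * ff κ (v + t • h) y ^ p * ⟪κ y, h⟫_ℝ)
    (bound := fun _ => ((p : ℝ) + 1) * (c * (‖v‖ + ‖h‖)) ^ p * (c * ‖h‖))
    (Metric.ball_mem_nhds _ one_pos) (Eventually.of_forall hmeas)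
    (integrable_ff_pow hWm hW hκ hlt _ _) hFp ?_ (integrable_const _) ?_
  · have h2 := key.2
    have h3 : ∫ y in W, ((p : ℝ) + 1) * ff κ (v + (0 : ℝ) • h) y ^ p * ⟪κ y, h⟫_ℝ ∂lam =
        ((p : ℝ) + 1) * ∫ y in W, ff κ v y ^ p * ⟪κ y, h⟫_ℝ ∂lam := by
      rw [← integral_const_mul]
      refine integral_congr_ae (Eventually.of_forall fun y => ?_)
      simp only [zero_smul, add_zero]
      ring
    rwa [h3] at h2
  · filter_upwards [ae_restrict_mem hWm] with y hy t ht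
    rw [mem_ball_zero_iff] at ht
    have h1 : ‖v + t • h‖ ≤ ‖v‖ + ‖h‖ := by
      refine (norm_add_le _ _).trans (add_le_add le_rfl ?_)
      rw [norm_smul]
      nlinarith [norm_nonneg h, ht.le]
    have h2 : ff κ (v + t • h) y ≤ c * (‖v‖ + ‖h‖) :=
      (ff_le hc _ hy).trans (mul_le_mul_of_nonneg_left h1 hc0)
    have h3 : |⟪κ y, h⟫_ℝ| ≤ c * ‖h‖ :=
      (abs_real_inner_le_norm _ _).trans (mul_le_mul_of_nonneg_right (hc y hy) (norm_nonneg _))
    have h4 : ff κ (v + t • h) y ^ p ≤ (c * (‖v‖ + ‖h‖)) ^ p :=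
      pow_le_pow_left₀ (ff_nonneg κ _ y) h2 p
    rw [norm_mul, norm_mul, Real.norm_of_nonneg (by positivity : (0 : ℝ) ≤ (p : ℝ) + 1),
      Real.norm_of_nonneg (pow_nonneg (ff_nonneg κ _ y) p), Real.norm_eq_abs]
    refine mul_le_mul (mul_le_mul_of_nonneg_left h4 (by positivity)) h3 (abs_nonneg _) ?_
    positivity
  · refine Eventually.of_forall fun y t _ => ?_
    have h1 : HasDerivAt (fun t : ℝ => ⟪κ y, v + t • h⟫_ℝ) ⟪κ y, h⟫_ℝ t := by
      have h2 : (fun t : ℝ => ⟪κ y, v + t • h⟫_ℝ) = fun t : ℝ => ⟪κ y, v⟫_ℝ + t * ⟪κ y, h⟫_ℝ := by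
        funext t
        rw [inner_add_right, real_inner_smul_right]
      rw [h2]
      simpa using ((hasDerivAt_id t).mul_const ⟪κ y, h⟫_ℝ).const_add ⟪κ y, v⟫_ℝ
    exact (hasDerivAt_maxpow p hp _).comp t h1

theorem st_A6 : ST_A6 := by
  intro H _ _ _ X _ _ _ lam κ W p v k m hWm hW hκ hlt hp hk hmax hm hkv
  obtain ⟨c, hc0, hc⟩ := exists_bound hW hκ
  have hp0 : (0 : ℝ) < p := by exact_mod_cast hp
  have hle : m ^ ((1 : ℝ) / p) ≤ Nf lam κ W p v := by
    rw [← hkv, real_inner_comm]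
    exact hk v
  have hmp : 0 < m ^ ((1 : ℝ) / p) := Real.rpow_pos_of_pos hm _
  have hN : 0 < Nf lam κ W p v := hmp.trans_le hle
  have hNp : 0 < Nf lam κ W p v ^ p := pow_pos hN p
  -- the norm
  have hge : Nf lam κ W p v ≤ m ^ ((1 : ℝ) / p) := by
    have h1 := hmax _ (mem_Kf hWm hW hκ hlt hp v hN)
    rw [hkv, real_inner_smul_right, real_inner_comm, inner_integral hWm hW hκ hlt] at h1
    have h2 : ∫ y in W, ff κ v y ^ p * ⟪κ y, v⟫_ℝ ∂lam = Nf lam κ W p v ^ (p + 1) := by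
      rw [Nf_pow]
      refine integral_congr_ae (Eventually.of_forall fun y => ?_)
      simp only [ff]
      rw [pow_succ]
      rcases le_total ⟪κ y, v⟫_ℝ 0 with h | h
      · rw [max_eq_right h, zero_pow (by omega), zero_mul, zero_mul]
      · rw [max_eq_left h]
    rw [h2, pow_succ, inv_mul_cancel_left₀ hNp.ne'] at h1
    exact h1
  have hNeq : Nf lam κ W p v = m ^ ((1 : ℝ) / p) := le_antisymm hge hle
  have hNpm : Nf lam κ W p v ^ p = m := by
    rw [hNeq, ← Real.rpow_natCast, ← Real.rpow_mul hm.le]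
    rw [one_div_mul_cancel hp0.ne', Real.rpow_one]
  -- identification
  have hident : ∀ h : H, ∫ y in W, ff κ v y ^ p * ⟪κ y, h⟫_ℝ ∂lam = m * ⟪k, h⟫_ℝ := by
    intro h
    have hd1 := deriv_I hWm hW hκ hlt hp v h
    have hlin : HasDerivAt (fun t : ℝ => ⟪k, v + t • h⟫_ℝ) ⟪k, h⟫_ℝ 0 := by
      have h2 : (fun t : ℝ => ⟪k, v + t • h⟫_ℝ) = fun t : ℝ => ⟪k, v⟫_ℝ + t * ⟪k, h⟫_ℝ := by
        funext t
        rw [inner_add_right, real_inner_smul_right]
      rw [h2]
      simpa using ((hasDerivAt_id (0 : ℝ)).mul_const ⟪k, h⟫_ℝ).const_add ⟪k, v⟫_ℝ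
    have hd2 := hlin.pow (p + 1)
    have hkvN : ⟪k, v⟫_ℝ = Nf lam κ W p v := by rw [hNeq, ← hkv, real_inner_comm]
    have hd3 := hd1.sub hd2
    have hmin : IsLocalMin ((fun t : ℝ => ∫ y in W, ff κ (v + t • h) y ^ (p + 1) ∂lam) -
        fun t : ℝ => ⟪k, v + t • h⟫_ℝ ^ (p + 1)) 0 := by
      have hcont : ContinuousAt (fun t : ℝ => ⟪k, v + t • h⟫_ℝ) 0 := hlin.continuousAt
      have hpos : ∀ᶠ t in 𝓝 (0 : ℝ), 0 < ⟪k, v + t • h⟫_ℝ := by
        refine hcont.eventually (lt_mem_nhds ?_)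
        simp only [zero_smul, add_zero]
        rw [hkvN]
        exact hN
      filter_upwards [hpos] with t ht
      simp only [Pi.sub_apply, zero_smul, add_zero]
      rw [hkvN, ← Nf_pow, ← Nf_pow, sub_self]
      have : ⟪k, v + t • h⟫_ℝ ^ (p + 1) ≤ Nf lam κ W p (v + t • h) ^ (p + 1) :=
        pow_le_pow_left₀ ht.le (hk _) _
      linarith
    have h0 := hmin.hasDerivAt_eq_zero hd3
    simp only [zero_smul, add_zero, Nat.add_sub_cancel, Nat.cast_add, Nat.cast_one] at h0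
    rw [hkvN, hNpm] at h0
    have hp1 : (0 : ℝ) < (p : ℝ) + 1 := by positivity
    have h3 : ((p : ℝ) + 1) * (∫ y in W, ff κ v y ^ p * ⟪κ y, h⟫_ℝ ∂lam - m * ⟪k, h⟫_ℝ) = 0 := by
      linarith
    have h4 := (mul_eq_zero.1 h3).resolve_left hp1.ne'
    linarith
  refine ⟨integrable_ff_smul hWm hW hκ hlt v p, ?_, ?_, integrable_ff_pow hWm hW hκ hlt v p, ?_⟩
  · refine ext_inner_right ℝ fun h => ?_
    have h1 := inner_integral hWm hW hκ hlt v h p
    rw [hident h] at h1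
    rw [real_inner_smul_left, ← h1]
    rfl
  · have hWne : W.Nonempty := by
      by_contra hne
      rw [Set.not_nonempty_iff_eq_empty] at hne
      have : Nf lam κ W p v = 0 := by
        rw [Nf_eq, hne, setIntegral_empty, Real.zero_rpow (by positivity)]
      linarith
    obtain ⟨x, hx, hxm⟩ := hW.exists_isMaxOn hWne
      ((hκ.inner (𝕜 := ℝ) (continuousOn_const (c := v))))
    refine ⟨x, hx, ?_⟩
    have hS : ∀ y ∈ W, ff κ v y ≤ ff κ v x := fun y hy => max_le_max (hxm hy) le_rfl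
    have h1 := Nf_le_sup hWm hW hκ hlt (p := p) (ff_nonneg κ v x) hS
    have h2 : ff κ v x = ⟪κ x, v⟫_ℝ := by
      unfold ff
      rcases le_total ⟪κ x, v⟫_ℝ 0 with h | h
      · exfalso
        have h3 : ff κ v x = 0 := by unfold ff; exact max_eq_right h
        rw [h3, mul_zero] at h1
        linarith
      · exact max_eq_left h
    rw [← hNeq, ← h2]
    exact h1
  · have h1 := hoelder hWm hlt hp (aesm_ff hWm hW hκ v)
      (aestronglyMeasurable_const (b := (1 : ℝ)) (μ := lam.restrict W)) (ff_nonneg κ v)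
      (fun _ => zero_le_one) (fun y hy => ff_le hc v hy) (fun y _ => le_refl (1 : ℝ))
    simp only [mul_one, one_pow] at h1
    rw [← Nf_eq, hNpm, setIntegral_const, smul_eq_mul, mul_one, mul_comm] at h1
    exact h1

end LEP.A6
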