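import Pool.Agent.Helper14.LE.Stmts2

/-!
# Basic facts on the functionals `N` and the sets `K`
-/

open MeasureTheory Set Filter Topology InnerProductSpace

noncomputable section

namespace LEP.KN

variable {H : Type} [NormedAddCommGroup H] [InnerProductSpace ℝ H]
variable {X : Type} [TopologicalSpace X] [MeasurableSpace X] [BorelSpace X]

theorem exists_bound {κ : X → H} {W : Set X} (hW : IsCompact W) (hκ : ContinuousOn κ W) :
    ∃ c : ℝ, 0 ≤ c ∧ ∀ x ∈ W, ‖κ x‖ ≤ c := by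
  obtain ⟨C, hC⟩ := (hW.image_of_continuousOn hκ.norm).bddAbove
  refine ⟨max C 0, le_max_right _ _, fun x hx => ?_⟩
  exact (hC (mem_image_of_mem _ hx)).trans (le_max_left _ _)

/-- positive part of the inner product -/
def ff (κ : X → H) (h : H) (y : X) : ℝ := max ⟪κ y, h⟫_ℝ 0

omit [TopologicalSpace X] [MeasurableSpace X] [BorelSpace X] in
theorem ff_nonneg (κ : X → H) (h : H) (y : X) : 0 ≤ ff κ h y := le_max_right _ _

omit [TopologicalSpace X] [MeasurableSpace X] [BorelSpace X] in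
theorem ff_le {κ : X → H} {W : Set X} {c : ℝ} (hc : ∀ x ∈ W, ‖κ x‖ ≤ c)
    (h : H) {y : X} (hy : y ∈ W) : ff κ h y ≤ c * ‖h‖ := by
  have h0 : 0 ≤ c := (norm_nonneg _).trans (hc y hy)
  refine max_le ?_ (by positivity)
  exact (real_inner_le_norm _ _).trans (mul_le_mul_of_nonneg_right (hc y hy) (norm_nonneg _))

theorem aesm_ff {κ : X → H} {W : Set X} {lam : Measure X} (hWm : MeasurableSet W)
    (hW : IsCompact W) (hκ : ContinuousOn κ W) (h : H) :
    AEStronglyMeasurable (ff κ h) (lam.restrict W) := by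
  have h1 : ContinuousOn (ff κ h) W := by
    unfold ff
    exact (hκ.inner continuousOn_const).sup continuousOn_const
  exact h1.aestronglyMeasurable_of_isCompact hW hWm

theorem integrable_bdd {W : Set X} {lam : Measure X} (hWm : MeasurableSet W) (hlt : lam W < ⊤)
    {E : Type} [NormedAddCommGroup E] {f : X → E} (hf : AEStronglyMeasurable f (lam.restrict W))
    {C : ℝ} (hC : ∀ y ∈ W, ‖f y‖ ≤ C) : IntegrableOn f W lam := by
  have : IsFiniteMeasure (lam.restrict W) := ⟨by simpa using hlt⟩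
  exact Integrable.of_bound hf C ((ae_restrict_mem hWm).mono fun y hy => hC y hy)

theorem memLp_bdd {W : Set X} {lam : Measure X} (hWm : MeasurableSet W) (hlt : lam W < ⊤)
    {E : Type} [NormedAddCommGroup E] {f : X → E} (hf : AEStronglyMeasurable f (lam.restrict W))
    {C : ℝ} (hC : ∀ y ∈ W, ‖f y‖ ≤ C) (q : ENNReal) : MemLp f q (lam.restrict W) := by
  have : IsFiniteMeasure (lam.restrict W) := ⟨by simpa using hlt⟩
  exact MemLp.of_bound hf C ((ae_restrict_mem hWm).mono fun y hy => hC y hy)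

/-- Hoelder. -/
theorem hoelder {W : Set X} {lam : Measure X} (hWm : MeasurableSet W) (hlt : lam W < ⊤)
    {p : ℕ} (hp : 1 ≤ p) {F G : X → ℝ} (hF : AEStronglyMeasurable F (lam.restrict W))
    (hG : AEStronglyMeasurable G (lam.restrict W)) (hF0 : ∀ y, 0 ≤ F y) (hG0 : ∀ y, 0 ≤ G y)
    {C D : ℝ} (hC : ∀ y ∈ W, F y ≤ C) (hD : ∀ y ∈ W, G y ≤ D) :
    ∫ y in W, F y ^ p * G y ∂lam ≤
      ((∫ y in W, F y ^ (p + 1) ∂lam) ^ ((1 : ℝ) / (p + 1))) ^ p *
        (∫ y in W, G y ^ (p + 1) ∂lam) ^ ((1 : ℝ) / (p + 1)) := by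
  have hp0 : (0 : ℝ) < p := by exact_mod_cast hp
  have hpq : Real.HolderConjugate (((p : ℝ) + 1) / p) ((p : ℝ) + 1) := by
    rw [Real.holderConjugate_iff]
    refine ⟨by rw [lt_div_iff₀ hp0]; linarith, ?_⟩
    field_simp
  have hFp : AEStronglyMeasurable (fun y => F y ^ p) (lam.restrict W) := hF.pow p
  have h1 := integral_mul_le_Lp_mul_Lq_of_nonneg (μ := lam.restrict W) hpq
    (f := fun y => F y ^ p) (g := G) (Eventually.of_forall fun y => pow_nonneg (hF0 y) p)
    (Eventually.of_forall hG0)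
    (memLp_bdd hWm hlt hFp (C := C ^ p) (fun y hy => by
      rw [Real.norm_of_nonneg (pow_nonneg (hF0 y) p)]
      exact pow_le_pow_left₀ (hF0 y) (hC y hy) p) _)
    (memLp_bdd hWm hlt hG (C := D) (fun y hy => by
      rw [Real.norm_of_nonneg (hG0 y)]
      exact hD y hy) _)
  have e1 : ∀ y, (F y ^ p) ^ (((p : ℝ) + 1) / p) = F y ^ (p + 1) := by
    intro y
    rw [← Real.rpow_natCast, ← Real.rpow_mul (hF0 y), ← Real.rpow_natCast]
    congr 1
    push_cast
    field_simp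
  have e2 : ∀ y, G y ^ ((p : ℝ) + 1) = G y ^ (p + 1) := by
    intro y
    rw [← Real.rpow_natCast]
    push_cast
    rfl
  simp only [e1, e2] at h1
  refine h1.trans (le_of_eq ?_)
  congr 1
  have hI : 0 ≤ ∫ y in W, F y ^ (p + 1) ∂lam :=
    integral_nonneg fun y => pow_nonneg (hF0 y) _
  rw [← Real.rpow_natCast, ← Real.rpow_mul hI]
  congr 1
  field_simp

theorem Nf_eq (lam : Measure X) (κ : X → H) (W : Set X) (p : ℕ) (h : H) :
    Nf lam κ W p h = (∫ y in W, ff κ h y ^ (p + 1) ∂lam) ^ ((1 : ℝ) / (p + 1)) := rfl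

theorem Nf_nonneg (lam : Measure X) (κ : X → H) (W : Set X) (p : ℕ) (h : H) :
    0 ≤ Nf lam κ W p h := by
  rw [Nf_eq]
  exact Real.rpow_nonneg (integral_nonneg fun y => pow_nonneg (ff_nonneg κ h y) _) _

theorem Nf_pow (lam : Measure X) (κ : X → H) (W : Set X) (p : ℕ) (h : H) :
    Nf lam κ W p h ^ (p + 1) = ∫ y in W, ff κ h y ^ (p + 1) ∂lam := by
  rw [Nf_eq]
  have hI : 0 ≤ ∫ y in W, ff κ h y ^ (p + 1) ∂lam :=
    integral_nonneg fun y => pow_nonneg (ff_nonneg κ h y) _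
  rw [← Real.rpow_natCast, ← Real.rpow_mul hI]
  have : (1 : ℝ) / (p + 1) * ((p + 1 : ℕ) : ℝ) = 1 := by
    push_cast
    field_simp
  rw [this, Real.rpow_one]

theorem integrable_ff_pow {κ : X → H} {W : Set X} {lam : Measure X} (hWm : MeasurableSet W)
    (hW : IsCompact W) (hκ : ContinuousOn κ W) (hlt : lam W < ⊤) (h : H) (n : ℕ) :
    IntegrableOn (fun y => ff κ h y ^ n) W lam := by
  obtain ⟨c, hc0, hc⟩ := exists_bound hW hκ
  refine integrable_bdd hWm hlt ((aesm_ff hWm hW hκ h).pow n) (C := (c * ‖h‖) ^ n) fun y hy => ?_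
  rw [Real.norm_of_nonneg (pow_nonneg (ff_nonneg κ h y) n)]
  exact pow_le_pow_left₀ (ff_nonneg κ h y) (ff_le hc h hy) n

theorem integrable_ff_smul {κ : X → H} {W : Set X} {lam : Measure X} (hWm : MeasurableSet W)
    (hW : IsCompact W) (hκ : ContinuousOn κ W) (hlt : lam W < ⊤) (h : H) (n : ℕ) :
    IntegrableOn (fun y => ff κ h y ^ n • κ y) W lam := by
  obtain ⟨c, hc0, hc⟩ := exists_bound hW hκ
  have h1 : AEStronglyMeasurable κ (lam.restrict W) :=
    hκ.aestronglyMeasurable_of_isCompact hW hWm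
  refine integrable_bdd hWm hlt (((aesm_ff hWm hW hκ h).pow n).smul h1)
    (C := (c * ‖h‖) ^ n * c) fun y hy => ?_
  rw [norm_smul, Real.norm_of_nonneg (pow_nonneg (ff_nonneg κ h y) n)]
  exact mul_le_mul (pow_le_pow_left₀ (ff_nonneg κ h y) (ff_le hc h hy) n) (hc y hy)
    (norm_nonneg _) (by positivity)

theorem inner_integral [CompleteSpace H] {κ : X → H} {W : Set X} {lam : Measure X}
    (hWm : MeasurableSet W)
    (hW : IsCompact W) (hκ : ContinuousOn κ W) (hlt : lam W < ⊤) (v h : H) (n : ℕ) :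
    ⟪∫ y in W, ff κ v y ^ n • κ y ∂lam, h⟫_ℝ = ∫ y in W, ff κ v y ^ n * ⟪κ y, h⟫_ℝ ∂lam := by
  rw [real_inner_comm, ← integral_inner (integrable_ff_smul hWm hW hκ hlt v n)]
  refine integral_congr_ae (Eventually.of_forall fun y => ?_)
  simp only
  rw [inner_smul_right, real_inner_comm]

theorem integrable_ff_inner {κ : X → H} {W : Set X} {lam : Measure X} (hWm : MeasurableSet W)
    (hW : IsCompact W) (hκ : ContinuousOn κ W) (hlt : lam W < ⊤) (v h : H) (n : ℕ) :
    IntegrableOn (fun y => ff κ v y ^ n * ⟪κ y, h⟫_ℝ) W lam := by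
  have h1 := (integrable_ff_smul hWm hW hκ hlt v n).inner_const (𝕜 := ℝ) h
  refine h1.congr (Eventually.of_forall fun y => ?_)
  simp only
  rw [real_inner_smul_left]

/-- the element of `K_W` in the direction `v` (up to normalisation). -/
theorem mem_Kf [CompleteSpace H] {κ : X → H} {W : Set X} {lam : Measure X}
    (hWm : MeasurableSet W) (hW : IsCompact W) (hκ : ContinuousOn κ W) (hlt : lam W < ⊤)
    {p : ℕ} (hp : 1 ≤ p) (v : H) (hN : 0 < Nf lam κ W p v) :
    (Nf lam κ W p v ^ p)⁻¹ • ∫ y in W, ff κ v y ^ p • κ y ∂lam ∈ Kf lam κ W p := by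
  intro h
  obtain ⟨c, hc0, hc⟩ := exists_bound hW hκ
  rw [real_inner_smul_left, inner_integral hWm hW hκ hlt]
  have hint : IntegrableOn (fun y => ff κ v y ^ p * ff κ h y) W lam := by
    refine integrable_bdd hWm hlt (((aesm_ff hWm hW hκ v).pow p).mul (aesm_ff hWm hW hκ h))
      (C := (c * ‖v‖) ^ p * (c * ‖h‖)) fun y hy => ?_
    rw [Real.norm_of_nonneg (mul_nonneg (pow_nonneg (ff_nonneg κ v y) p) (ff_nonneg κ h y))]
    exact mul_le_mul (pow_le_pow_left₀ (ff_nonneg κ v y) (ff_le hc v hy) p) (ff_le hc h hy)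
      (ff_nonneg κ h y) (by positivity)
  have h1 : ∫ y in W, ff κ v y ^ p * ⟪κ y, h⟫_ℝ ∂lam ≤ ∫ y in W, ff κ v y ^ p * ff κ h y ∂lam := by
    refine setIntegral_mono_on (integrable_ff_inner hWm hW hκ hlt v h p) hint hWm fun y _ => ?_
    exact mul_le_mul_of_nonneg_left (le_max_left _ _) (pow_nonneg (ff_nonneg κ v y) p)
  have h2 := hoelder hWm hlt hp (aesm_ff hWm hW hκ v) (aesm_ff hWm hW hκ h) (ff_nonneg κ v)
    (ff_nonneg κ h) (fun y hy => ff_le hc v hy) (fun y hy => ff_le hc h hy)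
  rw [← Nf_eq, ← Nf_eq] at h2
  have hNp : 0 < Nf lam κ W p v ^ p := pow_pos hN p
  rw [inv_mul_le_iff₀ hNp]
  exact h1.trans h2

theorem Nf_le_sup {κ : X → H} {W : Set X} {lam : Measure X} (hWm : MeasurableSet W)
    (hW : IsCompact W) (hκ : ContinuousOn κ W) (hlt : lam W < ⊤) {p : ℕ} {h : H} {S : ℝ}
    (hS0 : 0 ≤ S) (hS : ∀ y ∈ W, ff κ h y ≤ S) :
    Nf lam κ W p h ≤ (lam.real W) ^ ((1 : ℝ) / (p + 1)) * S := by
  have hI : 0 ≤ ∫ y in W, ff κ h y ^ (p + 1) ∂lam :=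
    integral_nonneg fun y => pow_nonneg (ff_nonneg κ h y) _
  have h1 : ∫ y in W, ff κ h y ^ (p + 1) ∂lam ≤ lam.real W * S ^ (p + 1) := by
    have h2 : ∫ y in W, ff κ h y ^ (p + 1) ∂lam ≤ ∫ _y in W, S ^ (p + 1) ∂lam := by
      refine setIntegral_mono_on (integrable_ff_pow hWm hW hκ hlt h (p + 1))
        (integrableOn_const (by exact hlt.ne)) hWm fun y hy => ?_
      exact pow_le_pow_left₀ (ff_nonneg κ h y) (hS y hy) _
    rw [setIntegral_const, smul_eq_mul] at h2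
    exact h2
  rw [Nf_eq]
  have hp1 : (0 : ℝ) < (p : ℝ) + 1 := by positivity
  refine (Real.rpow_le_rpow hI h1 (by positivity)).trans (le_of_eq ?_)
  rw [Real.mul_rpow measureReal_nonneg (pow_nonneg hS0 _)]
  congr 1
  rw [← Real.rpow_natCast, ← Real.rpow_mul hS0]
  have : ((p + 1 : ℕ) : ℝ) * ((1 : ℝ) / (p + 1)) = 1 := by
    push_cast
    field_simp
  rw [this, Real.rpow_one]

end LEP.KN
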